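import Pool.Agent.V8H10.LT.Std
import Pool.Agent.N496.LT.Stm2
import Pool.Agent.N504.RS.TwoDef

/-!
# Comparison of the compact definitions with those of the project LT
-/

set_option autoImplicit false

open scoped Matrix

noncomputable section

namespace Pool.Agent.V8H10.LT

open Module Filter Topology Pool.Agent.W907.SG Pool.Agent.TH630.Tor Pool.Agent.N496.LT Pool.Agent.W461.SGN
open Pool.Agent.TH652.Above (HSph)
open Pool.Agent.N504.RS.Two (HSph2)

section sphere

variable {V : Type} [Fintype V] [LinearOrder V] {F : Type} [Field F] (G : SimpleGraph V)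

theorem cycles_eq (ρ : V → F →ₗ[F] F) (hρ : ∀ t x, ρ t x = -x) (A : Set V) (i : ℕ) :
    cycles G F A i = ZZ G ρ A ∅ i := by
  have h : {c : Finset V → F | IsCh G A i c ∧ bnd c = 0} = (ZZ G ρ A ∅ i : Set (Finset V → F)) := by
    ext c
    constructor
    · rintro ⟨h1, h2⟩
      exact ⟨⟨h1, fun T t _ => hρ t _⟩, h2⟩
    · rintro ⟨⟨h1, -⟩, h2⟩
      exact ⟨h1, h2⟩
  unfold cycles
  rw [h, Submodule.span_eq]

theorem bounds_eq (ρ : V → F →ₗ[F] F) (hρ : ∀ t x, ρ t x = -x) (A : Set V) (i : ℕ) :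
    bounds G F A i = BB G ρ A ∅ i := by
  have h : {b : Finset V → F | ∃ c : Finset V → F, IsCh G A (i + 1) c ∧ bnd c = b} =
      (BB G ρ A ∅ i : Set (Finset V → F)) := by
    ext b
    constructor
    · rintro ⟨c, h1, h2⟩
      exact ⟨c, ⟨h1, fun T t _ => hρ t _⟩, h2⟩
    · rintro ⟨c, ⟨h1, -⟩, h2⟩
      exact ⟨c, h1, h2⟩
  unfold bounds
  rw [h, Submodule.span_eq]

theorem sphere_R {n : ℕ} : Sphere G ℝ n ↔ HSph n G := by
  unfold Sphere HSph
  refine forall_congr' fun S => forall_congr' fun _ => forall_congr' fun i => ?_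
  rw [cycles_eq G (fun _ => (- LinearMap.id : ℝ →ₗ[ℝ] ℝ)) (fun _ _ => rfl),
    bounds_eq G (fun _ => (- LinearMap.id : ℝ →ₗ[ℝ] ℝ)) (fun _ _ => rfl)]
  rfl

theorem sphere_2 {n : ℕ} : Sphere G (ZMod 2) n ↔ HSph2 n G := by
  unfold Sphere HSph2
  have h : ∀ (t : V) (x : ZMod 2), (Pool.Agent.R782.Bal.tr2 t) x = -x := fun _ x => (ZMod.neg_eq_self_mod_two x).symm
  refine forall_congr' fun S => forall_congr' fun _ => forall_congr' fun i => ?_
  rw [cycles_eq G Pool.Agent.R782.Bal.tr2 h, bounds_eq G Pool.Agent.R782.Bal.tr2 h]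
  rfl

end sphere

theorem subdiv_eq {n : ℕ} (G : SimpleGraph (Fin n)) (s t : Fin n) : subdiv G s t = sd G s t := by
  ext x y
  have h : (sd G s t).Adj x y → x ≠ y := fun h => h.ne
  have hA : ∀ x y : Fin (n + 1), (∃ a b, x = Fin.castSucc a ∧ y = Fin.castSucc b ∧ G.Adj a b ∧ s(a, b) ≠ s(s, t)) →
      (∃ a b, y = Fin.castSucc a ∧ x = Fin.castSucc b ∧ G.Adj a b ∧ s(a, b) ≠ s(s, t)) := by
    rintro x y ⟨a, b, h1, h2, h3, h4⟩
    exact ⟨b, a, h2, h1, h3.symm, by rwa [Sym2.eq_swap]⟩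
  unfold subdiv
  rw [SimpleGraph.fromRel_adj]
  constructor
  · rintro ⟨-, (h1 | h1) | (h1 | h1)⟩
    · exact Or.inl h1
    · exact Or.inr (Or.inl h1)
    · exact Or.inl (hA _ _ h1)
    · exact Or.inr (Or.inr h1)
  · intro h0
    refine ⟨h h0, ?_⟩
    rcases h0 with h1 | h1 | h1
    · exact Or.inl (Or.inl h1)
    · exact Or.inl (Or.inr h1)
    · exact Or.inr (Or.inr h1)

theorem subdivided {m n : ℕ} {G : SimpleGraph (Fin m)} {H : SimpleGraph (Fin n)} (h : Sub G H) :
    Subdivided G H := by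
  induction h with
  | refl => exact Subdivided.refl
  | step H s t h1 _ ih =>
    rw [← subdiv_eq]
    exact Subdivided.step H s t h1 ih

/-- the doubled cycle -/
def dbl {F : Type} [Field F] {V : Type} {G : SimpleGraph V} {d : ℕ} (Z : Doubled F G d) : Dbl F G d where
  n := Z.n
  z := Z.z
  j := Z.j
  U := Z.U
  z_ne := Z.z_ne
  z_card := Z.z_card
  z_cyc τ := congrFun Z.z_cyc τ
  j_ne := Z.j_ne
  j_U := Z.j_U
  j_adj := Z.j_adj
  clique := Z.clique
  cliqueU := Z.cliqueU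

theorem resFin {G : Type} [Group G] (h : ResFin G) : IsResFin G := by
  obtain ⟨N, h1, h2, h3, h4⟩ := h
  exact ⟨N, h1, h2, h3, h4⟩

theorem torsCard_eq {M : Type} [AddCommGroup M] (Z B : Submodule ℤ M) :
    torsCard Z.toAddSubgroup B.toAddSubgroup = Pool.Agent.Helper993.Delta.torsionCard Z B := by
  unfold torsCard Pool.Agent.Helper993.Delta.torsionCard
  rw [← Submodule.torsion_int]
  rfl

theorem torsion_eq {G : Type} [Group G] (C : GCx G) (n : ℕ) : torsion C n = C.torsOrder n := by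
  have h1 : cyc C n = (C.cyc n).toAddSubgroup := by
    have h : {v : C.ι → MonoidAlgebra ℤ G | (∀ i, C.deg i ≠ n → v i = 0) ∧ v ᵥ* C.D = 0} =
      ((C.cyc n).toAddSubgroup : Set _) := rfl
    unfold cyc
    rw [h, AddSubgroup.closure_eq]
  have h2 : bdy C n = (C.bdy n).toAddSubgroup := by
    have h : {v | ∃ u : C.ι → MonoidAlgebra ℤ G, (∀ i, C.deg i ≠ n + 1 → u i = 0) ∧ u ᵥ* C.D = v} =
      ((C.bdy n).toAddSubgroup : Set _) := rfl
    unfold bdy
    rw [h, AddSubgroup.closure_eq]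
  unfold torsion
  rw [h1, h2, torsCard_eq]
  rfl

theorem davis_eq {V : Type} [Fintype V] [LinearOrder V] (G : SimpleGraph V) :
    davis G = (Pool.Agent.N496.LT.davis G : GCx (Gam G)) := rfl

theorem free_eq {G : Type} [Group G] (C : GCx G) : free C = C.toFree := rfl

theorem quot_eq {G : Type} [Group G] (C : GCx G) (N : Subgroup G) [N.Normal] : quot C N = C.quot N := rfl

theorem prod_eq {G H : Type} [Group G] [Group H] (C : GCx G) (E : GCx H) : prod C E = C.prod E := rfl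

end Pool.Agent.V8H10.LT
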