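import Pool.Agent.V8H10.LT.StdF
import Pool.Agent.V8H3.LT.Cert2

/-!
# The final statements from the conclusions of the certificate
-/

set_option autoImplicit false

noncomputable section

namespace Pool.Agent.V8H10.LT

open Filter Topology Pool.Agent.TH630.Tor Pool.Agent.N496.LT Pool.Agent.V8H3.LT

/-- the cubes of a residual chain form a residual chain -/
theorem cube_iInf {V : Type} {G : SimpleGraph V} (K : ℕ → Subgroup (Gam G)) (h : ⨅ i, K i = ⊥) :
    ⨅ i, cube (K i) = ⊥ := by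
  rw [eq_bot_iff]
  intro x hx
  rw [Subgroup.mem_iInf] at hx
  have h1 : ∀ y : Gam G, (∀ i, y ∈ K i) → y = 1 := by
    intro y hy
    have : y ∈ ⨅ i, K i := Subgroup.mem_iInf.2 hy
    rw [h] at this
    exact Subgroup.mem_bot.1 this
  obtain ⟨x1, x2, x3⟩ := x
  have hx' : ∀ i, x1 ∈ K i ∧ x2 ∈ K i ∧ x3 ∈ K i := by
    intro i
    have := hx i
    unfold cube at this
    rw [Subgroup.mem_prod, Subgroup.mem_prod] at this
    exact this
  rw [Subgroup.mem_bot, h1 x1 fun i => (hx' i).1, h1 x2 fun i => (hx' i).2.1, h1 x3 fun i => (hx' i).2.2]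
  rfl

theorem cube_antitone {V : Type} {G : SimpleGraph V} (K : ℕ → Subgroup (Gam G)) (h : Antitone K) :
    Antitone fun i => cube (K i) := by
  intro i j hij
  exact Subgroup.prod_mono (h hij) (Subgroup.prod_mono (h hij) (h hij))

theorem cube_finiteIndex {V : Type} {G : SimpleGraph V} (K : Subgroup (Gam G)) (h : K.FiniteIndex) :
    (cube K).FiniteIndex := by
  constructor
  have h1 := h.index_ne_zero
  unfold cube
  rw [Subgroup.index_prod, Subgroup.index_prod]
  exact Nat.mul_ne_zero h1 (Nat.mul_ne_zero h1 h1)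

/-- the failure along the cubes of a residual chain -/
theorem fails_of {N : ℕ} {S : SimpleGraph (Fin N)} {k : ℕ} (hr : IsResFin (Gam S))
    (h : ∀ (K : ℕ → Subgroup (Gam S)) [∀ i, (K i).Normal], (∀ i, (K i).FiniteIndex) → Antitone K → ⨅ i, K i = ⊥ →
      ¬ Tendsto (fun i => rate (K i) k) atTop (𝓝 ((-1) ^ k * (free (davis3 S)).l2torsion))) :
    Fails (davis3 S) k := by
  obtain ⟨K, k1, k2, k3, k4⟩ := hr
  have := k1
  exact ⟨fun i => cube (K i), fun i => inferInstance, fun i => cube_finiteIndex (K i) (k2 i), cube_antitone K k3,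
    cube_iInf K k4, h K k2 k3 k4⟩

/-- **The final statement.** -/
theorem final_of_concl {d p u : ℕ} (h : Concl d p u) :
    ∃ (n : ℕ) (S : SimpleGraph (Fin n)), PLSphere (2 * d + 1) S ∧ IsResFin (Gam S) ∧
      (free (davis S)).DetL2Acyclic ∧ (free (davis3 S)).DetL2Acyclic ∧ (free (davis3 S)).l2torsion = 0 ∧
      (∀ (K : ℕ → Subgroup (Gam S)) [∀ i, (K i).Normal], (∀ i, (K i).FiniteIndex) → Antitone K → ⨅ i, K i = ⊥ →
        ∀ b : ℝ, 0 < b → b < 2 ^ n / 2 ^ u → ∀ᶠ i in atTop, b ^ 3 * Real.log p ≤ rate (K i) (3 * d + 1)) ∧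
      Fails (davis3 S) (3 * d + 1) := by
  obtain ⟨n, S, h1, h2, h3, h4, h5, h6⟩ := h
  exact ⟨n, S, h1, h2, h3, h4, h5, fun K _ a b c => (h6 K a b c).1, fails_of h2 fun K _ a b c => (h6 K a b c).2⟩

end Pool.Agent.V8H10.LT
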