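import Pool.Agent.N496.LT.Defs

/-!
# Homology spheres, doubled cycles, and the chain complex of the Davis complex: compact definitions

`G` is a finite graph with linearly ordered vertices. Its flag complex has the cliques as simplices. `W G` is the
right-angled Coxeter group with nerve the flag complex: the generators are the vertices, two generators commute if
they are adjacent.
-/

set_option autoImplicit false

open scoped Matrix

noncomputable section

namespace Pool.Agent.V8H10.LT

open Module Pool.Agent.W907.SG Pool.Agent.TH630.Tor Pool.Agent.N496.LT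

section sphere

variable {V : Type} [Fintype V] [LinearOrder V] {F : Type} [Field F] (G : SimpleGraph V)

/-- The simplicial boundary of a chain; a chain is a function on the finite sets of vertices. -/
def bnd (c : Finset V → F) (T : Finset V) : F := ∑ v ∈ Tᶜ, sg v T • c (insert v T)

/-- The chains on the simplices with `i` vertices of the full subcomplex spanned by `A`. -/
def IsCh (A : Set V) (i : ℕ) (c : Finset V → F) : Prop :=
  ∀ T : Finset V, ¬ (G.IsClique (T : Set V) ∧ (T : Set V) ⊆ A ∧ T.card = i) → c T = 0

/-- The space of the cycles on the simplices with `i` vertices in `A`. -/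
def cycles (F : Type) [Field F] (A : Set V) (i : ℕ) : Submodule F (Finset V → F) :=
  Submodule.span F {c | IsCh G A i c ∧ bnd c = 0}

/-- The space of the boundaries of the chains on the simplices with `i + 1` vertices in `A`. -/
def bounds (F : Type) [Field F] (A : Set V) (i : ℕ) : Submodule F (Finset V → F) :=
  Submodule.span F {b | ∃ c : Finset V → F, IsCh G A (i + 1) c ∧ bnd c = b}

/-- The link of a clique `S`: the vertices adjacent to all the elements of `S`. -/
def link (S : Finset V) : Set V := {v | ∀ u ∈ S, G.Adj v u}

/-- The flag complex of `G` is a homology manifold over `F` with the homology of the sphere of dimension `n - 1`: for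
every simplex `S` (the empty one included) the `(i - 1)`-st reduced Betti number of the link of `S` is `1` if
`i + |S| = n` and `0` otherwise. -/
def Sphere (F : Type) [Field F] (n : ℕ) : Prop :=
  ∀ S : Finset V, G.IsClique (S : Set V) → ∀ i : ℕ,
    finrank F (cycles G F (link G S) i) - finrank F (bounds G F (link G S) i) = if i + S.card = n then 1 else 0

end sphere

/-- The subdivision of the edge `s t` of the flag complex of `G`: the new vertex `Fin.last n` is adjacent to `s`, `t`
and the common neighbours of `s` and `t`, and the edge `s t` is deleted. -/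
def subdiv {n : ℕ} (G : SimpleGraph (Fin n)) (s t : Fin n) : SimpleGraph (Fin (n + 1)) :=
  SimpleGraph.fromRel fun x y => (∃ a b, x = Fin.castSucc a ∧ y = Fin.castSucc b ∧ G.Adj a b ∧ s(a, b) ≠ s(s, t)) ∨
    (x = Fin.last n ∧ ∃ b, y = Fin.castSucc b ∧ (b = s ∨ b = t ∨ (G.Adj s b ∧ G.Adj t b)))

/-- The graph `H` is obtained from `G` by finitely many edge subdivisions. -/
inductive Subdivided {m : ℕ} (G : SimpleGraph (Fin m)) : ∀ {n : ℕ}, SimpleGraph (Fin n) → Prop
  | refl : Subdivided G G
  | step {n : ℕ} (H : SimpleGraph (Fin n)) (s t : Fin n) : H.Adj s t → Subdivided G H → Subdivided G (subdiv H s t)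

/-- A doubled `d`-cycle with coefficients in `F` in the flag complex of the graph `G`: `z` is a nonzero simplicial
`d`-cycle on the vertex set `Fin n`; every vertex `v` has two lifts `j v false`, `j v true` in `G`, which are
different and not adjacent, except that the vertices in `U` have only one lift; lifts of different vertices are
different; all the lifts of the simplices with nonzero coefficient are simplices (cliques) of `G`, and so is `U`. -/
structure Doubled (F : Type) [Field F] {V : Type} (G : SimpleGraph V) (d : ℕ) where
  n : ℕ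
  z : Finset (Fin n) → F
  j : Fin n → Bool → V
  U : Finset (Fin n)
  z_ne : z ≠ 0
  z_card : ∀ σ, z σ ≠ 0 → σ.card = d + 1
  z_cyc : bnd z = 0
  j_ne : ∀ v w, v ≠ w → ∀ a b, j v a ≠ j w b
  j_U : ∀ v ∈ U, j v true = j v false
  j_adj : ∀ v, v ∉ U → j v true ≠ j v false ∧ ¬ G.Adj (j v true) (j v false)
  clique : ∀ σ, z σ ≠ 0 → ∀ v ∈ σ, ∀ w ∈ σ, v ≠ w → ∀ a b, G.Adj (j v a) (j w b)
  cliqueU : ∀ v ∈ U, ∀ w ∈ U, v ≠ w → G.Adj (j v true) (j w true)

/-- There is a sequence of normal subgroups of finite index with trivial intersection. -/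
def IsResFin (G : Type) [Group G] : Prop :=
  ∃ N : ℕ → Subgroup G, (∀ i, (N i).Normal) ∧ (∀ i, (N i).FiniteIndex) ∧ Antitone N ∧ ⨅ i, N i = ⊥

section davis

variable {V : Type} (G : SimpleGraph V)

open Classical in
theorem parity_liftable : (cox G).IsLiftable (fun v u => if u = v then (-1 : ℤˣ) else 1) :=
  Pool.Agent.W461.SGN.liftable G _ (by intro v; funext u; by_cases h : u = v <;> simp [h])
    (by intro u v _; exact mul_comm _ _)

open Classical in
/-- The homomorphism from `W G` to `{1, -1}^V` which sends the generator of `v` to the vector with `-1` at `v` only. -/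
def parity : W G →* (V → ℤˣ) :=
  (cox G).toCoxeterSystem.lift ⟨fun v u => if u = v then -1 else 1, parity_liftable G⟩

/-- The group `Γ`, the kernel of `parity`. -/
def Gam : Type := ↥(parity G).ker

instance : Group (Gam G) := (parity G).ker.toGroup

/-- The integral group ring of `Γ`. -/
abbrev ZGam : Type := MonoidAlgebra ℤ (Gam G)

variable [Fintype V] [LinearOrder V]

/-- The product of the generators in `A` in increasing order. -/
def repr (A : Finset V) : W G := ((A.sort (· ≤ ·)).map (cox G).simple).prod

/-- The set of the vertices at which the parity of `w` is `-1`. -/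
def odds (w : W G) : Finset V := Finset.univ.filter fun v => parity G w v = -1

theorem mul_repr_mem (w : W G) : w * (repr G (odds G w))⁻¹ ∈ (parity G).ker :=
  Pool.Agent.N496.LT.mul_rep_mem G w

/-- The element `w r⁻¹` of `Γ`, where `r` is the product of the generators at which the parity of `w` is `-1`. -/
def gam (w : W G) : Gam G := ⟨w * (repr G (odds G w))⁻¹, mul_repr_mem G w⟩

/-- The cells, up to the action of `Γ`: the pair `(T, A)`, with `T` a clique and `A` disjoint from `T`, stands for the
cube `r W_T` of the Davis complex of `W G`, `r = repr A`. -/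
def Cell : Type := {c : Finset V × Finset V // G.IsClique (c.1 : Set V) ∧ Disjoint c.1 c.2}

open Classical in
instance : Fintype (Cell G) := Subtype.fintype _

instance : DecidableEq (Cell G) := Subtype.instDecidableEq

/-- The coefficient of the cell `(T - t, A')` in `(T - t, A) - r t W_{T - t}`, `r = repr A`: the two faces of the cube
`(T, A)` opposite to each other in the direction `t`. -/
def face (t : V) (A A' : Finset V) : ZGam G :=
  (if A' = A then 1 else 0) -
    (if A' = insert t A then MonoidAlgebra.single (gam G (repr G A * (cox G).simple t)) 1 else 0)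

/-- The boundary matrix of the cellular chain complex of the Davis complex: the boundary of the cube `w W_T` is the
alternating sum of the `w W_{T - t} - w t W_{T - t}`. -/
def bdry : Matrix (Cell G) (Cell G) (ZGam G) :=
  Matrix.of fun c c' => ∑ t ∈ c.1.1, if c'.1.1 = c.1.1.erase t then
    ((sg t (c.1.1.erase t) : ℤ) : ZGam G) * face G t c.1.2 c'.1.2 else 0

theorem bdry_deg (c c' : Cell G) (h : bdry G c c' ≠ 0) : c.1.1.card = c'.1.1.card + 1 :=
  (Pool.Agent.N496.LT.davis G).D_deg c c' h

theorem bdry_sq : bdry G * bdry G = 0 := (Pool.Agent.N496.LT.davis G).D_sq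

/-- The cellular chain complex of the Davis complex of `W G` over `Γ`. -/
def davis : GCx (Gam G) where
  ι := Cell G
  deg c := c.1.1.card
  D := bdry G
  D_deg := bdry_deg G
  D_sq := bdry_sq G

end davis

/-- The order of the torsion subgroup of `Z / B`. -/
def torsCard {M : Type} [AddCommGroup M] (Z B : AddSubgroup M) : ℕ :=
  Nat.card (AddCommGroup.torsion (Z ⧸ B.addSubgroupOf Z))

section free

variable {G : Type} [Group G] (C : GCx G)

/-- the cells of dimension `n` -/
def CellN (n : ℕ) : Type := {i : C.ι // C.deg i = n}

instance (n : ℕ) : Fintype (CellN C n) := Subtype.fintype _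

/-- the number of the cells of dimension `n` -/
def num (n : ℕ) : ℕ := Fintype.card (CellN C n)

/-- a numbering of the cells of dimension `n` -/
def cell (n : ℕ) (a : Fin (num C n)) : C.ι := ((Fintype.equivFin (CellN C n)).symm a).1

/-- the boundary matrix from the dimension `n + 1` to the dimension `n` -/
def dmat (n : ℕ) : Matrix (Fin (num C (n + 1))) (Fin (num C n)) (MonoidAlgebra ℤ G) :=
  Matrix.of fun a b => C.D (cell C (n + 1) a) (cell C n b)

theorem num_eq_zero (n : ℕ) (h : Finset.univ.sup C.deg < n) : num C n = 0 := C.toFree.rank_eq_zero n h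

theorem dmat_dmat (n : ℕ) : dmat C (n + 1) * dmat C n = 0 := C.toFree.d_comp_d n

/-- The complex `C`, one degree at a time. -/
def free : FreeCx G where
  rank := num C
  dim := Finset.univ.sup C.deg
  rank_eq_zero := num_eq_zero C
  d := dmat C
  d_comp_d := dmat_dmat C

/-- the `n`-cycles -/
def cyc (n : ℕ) : AddSubgroup (C.ι → MonoidAlgebra ℤ G) :=
  AddSubgroup.closure {v | (∀ i, C.deg i ≠ n → v i = 0) ∧ v ᵥ* C.D = 0}

/-- the `n`-boundaries -/
def bdy (n : ℕ) : AddSubgroup (C.ι → MonoidAlgebra ℤ G) :=
  AddSubgroup.closure {v | ∃ u : C.ι → MonoidAlgebra ℤ G, (∀ i, C.deg i ≠ n + 1 → u i = 0) ∧ u ᵥ* C.D = v}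

/-- The order of the torsion subgroup of the `n`-th homology group (of the complex of abelian groups). -/
def torsion (n : ℕ) : ℕ := torsCard (cyc C n) (bdy C n)

/-- The boundary matrix of the quotient complex. -/
def qmat (N : Subgroup G) [N.Normal] : Matrix C.ι C.ι (MonoidAlgebra ℤ (G ⧸ N)) :=
  C.D.map (MonoidAlgebra.mapDomainRingHom ℤ (QuotientGroup.mk' N))

theorem qmat_deg (N : Subgroup G) [N.Normal] (i j : C.ι) (h : qmat C N i j ≠ 0) : C.deg i = C.deg j + 1 :=
  (C.quot N).D_deg i j h

theorem qmat_sq (N : Subgroup G) [N.Normal] : qmat C N * qmat C N = 0 := (C.quot N).D_sq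

/-- The quotient complex over `G ⧸ N`: the chain complex of the quotient space by `N`. -/
def quot (N : Subgroup G) [N.Normal] : GCx (G ⧸ N) where
  ι := C.ι
  deg := C.deg
  D := qmat C N
  D_deg := qmat_deg C N
  D_sq := qmat_sq C N

variable {H : Type} [Group H] (E : GCx H)

/-- The boundary matrix of the product complex. -/
def pmat : Matrix (C.ι × E.ι) (C.ι × E.ι) (MonoidAlgebra ℤ (G × H)) :=
  Matrix.of fun x y =>
    (if x.2 = y.2 then MonoidAlgebra.mapDomainRingHom ℤ (MonoidHom.inl G H) (C.D x.1 y.1) else 0) +
    (if x.1 = y.1 then (-1) ^ C.deg x.1 * MonoidAlgebra.mapDomainRingHom ℤ (MonoidHom.inr G H) (E.D x.2 y.2)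
      else 0)

theorem pmat_deg (x y : C.ι × E.ι) (h : pmat C E x y ≠ 0) : C.deg x.1 + E.deg x.2 = C.deg y.1 + E.deg y.2 + 1 :=
  (C.prod E).D_deg x y h

theorem pmat_sq : pmat C E * pmat C E = 0 := (C.prod E).D_sq

/-- The chain complex of the product of two spaces. -/
def prod : GCx (G × H) where
  ι := C.ι × E.ι
  deg x := C.deg x.1 + E.deg x.2
  D := pmat C E
  D_deg := pmat_deg C E
  D_sq := pmat_sq C E

end free

section triple

variable {V : Type} [Fintype V] [LinearOrder V] (G : SimpleGraph V)

/-- The group `Γ³`. -/
abbrev Gam3 {V : Type} (G : SimpleGraph V) : Type := Gam G × (Gam G × Gam G)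

/-- The cellular chain complex of the product of three copies of the Davis complex of `W G` over `Γ³`. -/
def davis3 : GCx (Gam3 G) := prod (davis G) (prod (davis G) (davis G))

/-- The subgroup `K³` of `Γ³`. -/
def cube {V : Type} {G : SimpleGraph V} (K : Subgroup (Gam G)) : Subgroup (Gam3 G) := K.prod (K.prod K)

instance {V : Type} {G : SimpleGraph V} (K : Subgroup (Gam G)) [K.Normal] : (cube K).Normal :=
  Subgroup.prod_normal _ _

/-- `log |tors H_i(M_K)| / [Γ³ : K³]`, where `M_K` is the quotient by `K³` of the product of three copies of the Davis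
complex. -/
def rate {G : SimpleGraph V} (K : Subgroup (Gam G)) [K.Normal] (i : ℕ) : ℝ :=
  Real.log (torsion (quot (davis3 G) (cube K)) i) / (cube K).index

end triple

end Pool.Agent.V8H10.LT
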