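import Pool.Agent.V8H10.LT.Std

/-!
# The failure of the approximation of the `L²`-torsion by the torsion homology growth
-/

set_option autoImplicit false

open Filter Topology

noncomputable section

namespace Pool.Agent.V8H10.LT

open Pool.Agent.TH630.Tor Pool.Agent.N496.LT

/-- There is a decreasing sequence of normal subgroups `L i` of finite index of `G`, with trivial intersection, for
which `log |tors H_k(C / L i)| / [G : L i]` does not converge to `(-1)^k ρ`, where `ρ` is the `L²`-torsion of `C`. -/
def Fails {G : Type} [Group G] (C : GCx G) (k : ℕ) : Prop :=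
  ∃ (L : ℕ → Subgroup G) (_ : ∀ i, (L i).Normal), (∀ i, (L i).FiniteIndex) ∧ Antitone L ∧ ⨅ i, L i = ⊥ ∧
    ¬ Tendsto (fun i => Real.log (torsion (quot C (L i)) k) / (L i).index) atTop (𝓝 ((-1) ^ k * (free C).l2torsion))

end Pool.Agent.V8H10.LT
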